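import Pool.Agent.Helper17.Trs.Defs

/-!
# Project `trs2` (MP_a2f59b_nt): the linear subgroup theorem for hyperplanes, any number of
derivations, with the shape condition only for connected algebraic subgroups (in linear terms)
-/

namespace Trs2

open MvPolynomial Trs

/-- the operator attached to a word in the derivations -/
noncomputable def wd {n r : ℕ} (tor : Fin n → Bool) (w : Fin r → Fin n → ℂ) (l : List (Fin r))
    (f : Rg n) : Rg n := l.foldl (fun Q i => dr tor (w i) Q) f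

/-- **Engine** (auxiliary polynomial), any number of derivations. -/
def S_Engine : Prop :=
  ∀ (n m r : ℕ) (tor : Fin n → Bool) (γ : Fin m → Fin n → ℂ) (w : Fin r → Fin n → ℂ)
    (φ : Fin n → ℂ),
    φ ≠ 0 → (∀ k, ∑ i, φ i * γ k i = 0) → (∀ k, ∑ i, φ i * w k i = 0) →
    (∀ k i, IsAlgebraic ℚ (if tor i then Complex.exp (γ k i) else γ k i)) →
    (∀ k i, IsAlgebraic ℚ (w k i)) →
    ∀ u a d s t : ℕ, a < u → d + s < u → t < u → (n - 1) * u < ∑ i, ex tor a d i →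
    ∃ N0 : ℕ, ∀ N, N0 ≤ N → ∃ P : Rg n, P ≠ 0 ∧
      (∀ i, P.degreeOf i ≤ N ^ ex tor a d i) ∧
      ∀ g : Fin m → ℤ, (∀ k, 0 ≤ g k ∧ g k < (N ^ s : ℕ)) →
        ∀ l : List (Fin r), l.length < N ^ t → ev tor (gp γ g) (wd tor w l P) = 0

/-- `e` of the derivations are transversal to `p` -/
def Wt {n r : ℕ} (tor : Fin n → Bool) (w : Fin r → Fin n → ℂ) (p : Ideal (Rg n)) (e : ℕ) : Prop :=
  ∃ (c : Fin e → Fin r) (z : Fin e → Rg n), (∀ i, z i ∈ p) ∧
    Matrix.det (Matrix.of fun i j => dr tor (w (c i)) (z j)) ∉ p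

/-- the prime ideal of a connected algebraic subgroup -/
structure Grp {n : ℕ} (tor : Fin n → Bool) (p : Ideal (Rg n)) : Prop where
  prime : p.IsPrime
  ne_bot : p ≠ ⊥
  le : p ≤ RingHom.ker (ev tor 0)
  stb : ∀ z : Fin n → ℂ, p ≤ RingHom.ker (ev tor z) → Stb tor p z

/-- **Zero lemma** with a connected algebraic subgroup. -/
def S_Zero : Prop :=
  ∀ (n m r : ℕ) (tor : Fin n → Bool) (γ : Fin m → Fin n → ℂ) (w : Fin r → Fin n → ℂ)
    (S σ : ℕ) (d : Fin n → ℕ), (∀ i, 1 ≤ d i) → ∀ P : Rg n, P ≠ 0 → (∀ i, P.degreeOf i ≤ d i) →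
    (∀ g : Fin m → ℤ, (∀ k, 0 ≤ g k ∧ g k ≤ (4 * n * S : ℕ)) →
      ∀ l : List (Fin r), l.length ≤ 2 * n * σ → ev tor (gp γ g) (wd tor w l P) = 0) →
    ∃ p : Ideal (Rg n), Grp tor p ∧
      ∀ I, Bas p I → ∀ Ax, Free tor γ p Ax → ∀ e, e ≤ Iᶜ.card → Wt tor w p e →
        (S + 1) ^ Ax.card * (σ + 1) ^ e ≤ KZ n * ∏ i ∈ Iᶜ, d i

/-- The shape condition in linear terms: `lam` is a basis of the space of linear forms vanishing on
the additive part of a connected algebraic subgroup and `mu` is a basis of the group of characters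
that are trivial on it; `Ax` is a set of axes which is free modulo the subgroup and `Cx` a set of
derivations which are independent modulo its tangent space. -/
def ShapeL {n m r : ℕ} (tor : Fin n → Bool) (γ : Fin m → Fin n → ℂ) (w : Fin r → Fin n → ℂ)
    (a d s t : ℕ) : Prop :=
  ∀ (ca cm : ℕ) (lam : Fin ca → Fin n → ℂ) (mu : Fin cm → Fin n → ℤ),
    LinearIndependent ℂ lam → LinearIndependent ℤ mu →
    (∀ j i, tor i = true → lam j i = 0) → (∀ j i, tor i = false → mu j i = 0) → 0 < ca + cm →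
    ∃ (Ax : Finset (Fin m)) (Cx : Finset (Fin r)),
      (∀ g : Fin m → ℤ, (∀ k, k ∉ Ax → g k = 0) → (∀ j, ∑ i, lam j i * gp γ g i = 0) →
        (∀ j, Complex.exp (∑ i, (mu j i : ℂ) * gp γ g i) = 1) → g = 0) ∧
      (∀ x : Fin r → ℂ, (∀ k, k ∉ Cx → x k = 0) →
        (∀ j, ∑ i, lam j i * (∑ k, x k * w k i) = 0) →
        (∀ j, ∑ i, (mu j i : ℂ) * (∑ k, x k * w k i) = 0) → x = 0) ∧
      a * ca + d * cm < s * Ax.card + t * Cx.card

/-- **Main** (linear subgroup theorem for hyperplanes): data satisfying the linear shape condition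
cannot exist. -/
def S_Main : Prop :=
  ∀ (n m r : ℕ) (tor : Fin n → Bool) (γ : Fin m → Fin n → ℂ) (w : Fin r → Fin n → ℂ)
    (φ : Fin n → ℂ),
    φ ≠ 0 → (∀ k, ∑ i, φ i * γ k i = 0) → (∀ k, ∑ i, φ i * w k i = 0) →
    (∀ k i, IsAlgebraic ℚ (if tor i then Complex.exp (γ k i) else γ k i)) →
    (∀ k i, IsAlgebraic ℚ (w k i)) →
    ∀ u a d s t : ℕ, a < u → d + s + 1 < u → t + 1 < u → (n - 1) * u < ∑ i, ex tor a d i →
    ShapeL tor γ w a d s t → False

/-! ## The transcendence statements -/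

/-- `πe, π^π, e^e` -/
def S_245 : Prop := SomeT {2, 4, 5}
/-- `πe, e^e, π^e` -/
def S_256 : Prop := SomeT {2, 5, 6}
/-- `πe, π^π, π^e` -/
def S_246 : Prop := SomeT {2, 4, 6}
/-- `πe, π^π, e^(π²)` -/
def S_248 : Prop := SomeT {2, 4, 8}
/-- `πe, π^e, e^(π²)` -/
def S_268 : Prop := SomeT {2, 6, 8}
/-- `πe, π^√2` -/
def S_27 : Prop := SomeT {2, 7}
/-- `π/e, π^√2` -/
def S_37 : Prop := SomeT {3, 7}

end Trs2
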