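import Pool.Agent.Helper17.Trs2.Main
import Pool.Agent.Helper17.Trs.All
import Pool.Agent.Helper79.Trs2.ENG
import Pool.Agent.Helper38.PiE.All
import Pool.Agent.Helper38.Trs2.I248
import Pool.Agent.Helper38.Trs2.I268
import Pool.Agent.Helper78.Trs2.I246

/-!
# Project `trs2`: assembly
-/

namespace Trs2

open Trs

theorem sMain : Trs2.S_Main :=
  main_thm H79.jorT del Pool.Agent.Helper79.Trs2.engine (Trs2.zero_lemma tdim)

theorem s248 : S_248 := Pool.Agent.Helper38.Trs2.st_248 sMain
theorem s268 : S_268 := Pool.Agent.Helper38.Trs2.st_268 sMain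
theorem s246 : S_246 :=
  Pool.Agent.Helper78.Trs2.st_246 sMain Trs.sMain H79.jorT H79.jorD alg1 del tor' addPair tdim

lemma count7 : ∀ t0 t1 t3 t4 t5 t6 t7 t8 : Bool,
    t0 → t1 → t3 → t7 → (t4 || t5) → (t4 || t6) → (t4 || t8) → (t5 || t6) → (t5 || t8) →
    (t6 || t8) →
    7 ≤ t0.toNat + t1.toNat + t3.toNat + t4.toNat + t5.toNat + t6.toNat + t7.toNat +
      t8.toNat := by
  intro t0 t1 t3 t4 t5 t6 t7 t8
  cases t0 <;> cases t1 <;> cases t3 <;> cases t4 <;> cases t5 <;> cases t6 <;> cases t7 <;>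
    cases t8 <;> simp

theorem seven (h2 : IsAlgebraic ℚ (nine 2)) :
    7 ≤ {i : Fin 9 | i ≠ 2 ∧ Transcendental ℚ (nine i)}.ncard := by
  classical
  set t : Fin 9 → Bool := fun i => decide (Transcendental ℚ (nine i)) with ht
  have htr : ∀ i, t i = true ↔ Transcendental ℚ (nine i) := fun i => by simp [ht]
  have one : ∀ j : Fin 9, (IsAlgebraic ℚ (nine j) → False) → t j = true := by
    intro j hj
    rw [htr]
    exact hj
  have two : ∀ (s : Finset (Fin 9)) (i j : Fin 9), SomeT s → (∀ k ∈ s, k = 2 ∨ k = i ∨ k = j) →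
      (t i || t j) = true := by
    rintro s i j ⟨k, hk, hkt⟩ hs
    rcases hs k hk with h | h | h
    · rw [h] at hkt
      exact absurd h2 hkt
    · rw [h, ← htr] at hkt
      rw [hkt, Bool.true_or]
    · rw [h, ← htr] at hkt
      rw [hkt, Bool.or_true]
  have t0 : t 0 = true := one 0 fun h => pairs sHL (i := 0) (j := 2) (by decide) (by decide) h h2
  have t1 : t 1 = true := one 1 fun h => pairs sHL (i := 1) (j := 2) (by decide) (by decide) h h2
  have t3 : t 3 = true := one 3 fun h => pairs sHL (i := 2) (j := 3) (by decide) (by decide) h2 h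
  have t7 : t 7 = true := by
    have := two {2, 7} 7 7 Pool.Agent.Helper38.PiE.s27 (by decide)
    simpa using this
  have hcount := count7 (t 0) (t 1) (t 3) (t 4) (t 5) (t 6) (t 7) (t 8) t0 t1 t3 t7
    (two {2, 4, 5} 4 5 Pool.Agent.Helper38.PiE.s245 (by decide))
    (two {2, 4, 6} 4 6 s246 (by decide)) (two {2, 4, 8} 4 8 s248 (by decide))
    (two {2, 5, 6} 5 6 Pool.Agent.Helper38.PiE.s256 (by decide))
    (two {2, 5, 8} 5 8 sC (by decide)) (two {2, 6, 8} 6 8 s268 (by decide))
  have hset : {i : Fin 9 | i ≠ 2 ∧ Transcendental ℚ (nine i)} =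
      ((Finset.univ.filter fun i : Fin 9 => i ≠ 2 ∧ t i = true : Finset (Fin 9)) :
        Set (Fin 9)) := by
    ext i; simp [htr]
  rw [hset, Set.ncard_coe_finset, Finset.card_filter]
  have hif : ∀ b : Bool, (if b = true then 1 else 0) = b.toNat := by decide
  have hsum : (∑ i : Fin 9, if i ≠ 2 ∧ t i = true then 1 else 0) =
      (t 0).toNat + (t 1).toNat + (t 3).toNat + (t 4).toNat + (t 5).toNat + (t 6).toNat +
        (t 7).toNat + (t 8).toNat := by
    have h9 : (Finset.univ : Finset (Fin 9)) = {0, 1, 2, 3, 4, 5, 6, 7, 8} := by decide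
    rw [h9]
    simp only [← hif]
    rw [Finset.sum_insert (by decide), Finset.sum_insert (by decide),
      Finset.sum_insert (by decide), Finset.sum_insert (by decide),
      Finset.sum_insert (by decide), Finset.sum_insert (by decide),
      Finset.sum_insert (by decide), Finset.sum_insert (by decide), Finset.sum_singleton]
    simp only [ne_eq, Fin.reduceEq, not_false_eq_true, true_and, not_true_eq_false, false_and,
      if_false]
    ring
  rw [hsum]
  exact hcount

/-- the eight numbers other than `πe` -/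
noncomputable def eight2 : Fin 8 → ℝ :=
  ![Real.pi + Real.exp 1, Real.pi - Real.exp 1, Real.pi / Real.exp 1,
    Real.pi ^ Real.pi, Real.exp 1 ^ Real.exp 1, Real.pi ^ Real.exp 1, Real.pi ^ Real.sqrt 2,
    Real.exp 1 ^ (Real.pi ^ 2)]

lemma eight2_eq (i : Fin 8) : eight2 i = nine ((2 : Fin 9).succAbove i) := by
  fin_cases i <;> rfl

theorem seven_of_eight (h : IsAlgebraic ℤ (Real.pi * Real.exp 1)) :
    7 ≤ {i : Fin 8 | Transcendental ℤ (eight2 i)}.ncard := by
  have h2 : IsAlgebraic ℚ (nine 2) := by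
    by_contra hcon
    exact (transc_int_iff (x := Real.pi * Real.exp 1)).2 hcon h
  have h := seven h2
  have himg : {i : Fin 9 | i ≠ 2 ∧ Transcendental ℚ (nine i)} =
      (2 : Fin 9).succAbove '' {i : Fin 8 | Transcendental ℤ (eight2 i)} := by
    ext i
    simp only [Set.mem_ofPred_eq, Set.mem_image, transc_int_iff, eight2_eq]
    constructor
    · rintro ⟨h1, h2⟩
      obtain ⟨j, rfl⟩ := Fin.exists_succAbove_eq h1
      exact ⟨j, h2, rfl⟩
    · rintro ⟨j, h2, rfl⟩
      exact ⟨Fin.succAbove_ne _ _, h2⟩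
  rw [himg, Set.ncard_image_of_injective _ Fin.succAbove_right_injective] at h
  exact h

end Trs2
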