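import Pool.Agent.Helper17.Trs2.Struct

/-!
# Bases of coordinates for connected algebraic subgroups, forms and characters
-/

namespace Trs2

open MvPolynomial Trs

variable {n : ℕ} {tor : Fin n → Bool}

/-- linearly independent columns contain an invertible minor -/
theorem exists_minor {ι : Type*} [Fintype ι] {e : ℕ} (N : ι → Fin e → ℂ)
    (hN : ∀ x : Fin e → ℂ, (∀ i, ∑ j, N i j * x j = 0) → x = 0) :
    ∃ s : Fin e → ι, Function.Injective s ∧ Matrix.det (Matrix.of fun i j => N (s i) j) ≠ 0 := by
  classical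
  have htop : Submodule.span ℂ (Set.range N) = ⊤ := by
    by_contra hne
    obtain ⟨f, hf0, hf⟩ := Submodule.exists_dual_map_eq_bot_of_lt_top (lt_top_iff_ne_top.2 hne)
      inferInstance
    apply hf0
    have h1 : ∀ z : Fin e → ℂ, f z = ∑ x, z x * f (Pi.single x 1) := fun z => by
      conv_lhs => rw [← Finset.univ_sum_single z]
      rw [map_sum]
      refine Finset.sum_congr rfl fun x _ => ?_
      have : (Pi.single x (z x) : Fin e → ℂ) = z x • Pi.single x 1 := by
        rw [← Pi.single_smul, smul_eq_mul, mul_one]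
      rw [this, map_smul, smul_eq_mul]
    have h2 : (fun x => f (Pi.single x 1)) = 0 := by
      refine hN _ fun i => ?_
      have h3 : f (N i) ∈ (Submodule.span ℂ (Set.range N)).map f :=
        ⟨N i, Submodule.subset_span ⟨i, rfl⟩, rfl⟩
      rw [hf] at h3
      rw [← h1]
      exact h3
    refine LinearMap.ext fun z => ?_
    rw [h1]
    refine Finset.sum_eq_zero fun x _ => ?_
    rw [show f (Pi.single x 1) = 0 from congrFun h2 x, mul_zero]
  obtain ⟨κ, a, ha, hspan, hli⟩ := exists_linearIndependent' ℂ N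
  rw [htop] at hspan
  have : Finite κ := Finite.of_injective a ha
  have : Fintype κ := Fintype.ofFinite κ
  let b : Module.Basis κ ℂ (Fin e → ℂ) := Module.Basis.mk hli hspan.ge
  have hcard : Fintype.card κ = e := by
    have := Module.finrank_eq_card_basis b
    rw [Module.finrank_fin_fun] at this
    exact this.symm
  let ε : Fin e ≃ κ := (Fintype.equivFinOfCardEq hcard).symm
  refine ⟨fun i => a (ε i), ha.comp ε.injective, ?_⟩
  have h4 : LinearIndependent ℂ (fun i : Fin e => N (a (ε i))) := hli.comp ε ε.injective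
  have h5 : IsUnit (Matrix.of fun i j => N (a (ε i)) j) :=
    (Matrix.linearIndependent_rows_iff_isUnit (A := Matrix.of fun i j => N (a (ε i)) j)).1 h4
  rw [Matrix.isUnit_iff_isUnit_det] at h5
  exact h5.ne_zero

/-- dual vectors in `U` for independent coordinate functionals -/
theorem exists_dual (U : Submodule ℂ (Fin n → ℂ)) (I : Finset (Fin n))
    (hI : ∀ c : Fin n → ℂ, (∀ i, i ∉ I → c i = 0) → (∀ u ∈ U, ∑ i, c i * u i = 0) → c = 0)
    (i : Fin n) (hi : i ∈ I) : ∃ u ∈ U, u i = 1 ∧ ∀ j ∈ I, j ≠ i → u j = 0 := by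
  classical
  let Φ : U →ₗ[ℂ] (I → ℂ) := LinearMap.pi fun j => (LinearMap.proj (j : Fin n)).comp U.subtype
  have hΦ : ∀ (u : U) (j : I), Φ u j = (u : Fin n → ℂ) j := fun u j => rfl
  have htop : LinearMap.range Φ = ⊤ := by
    by_contra hne
    obtain ⟨f, hf0, hf⟩ := Submodule.exists_dual_map_eq_bot_of_lt_top (lt_top_iff_ne_top.2 hne)
      inferInstance
    apply hf0
    have h1 : ∀ z : I → ℂ, f z = ∑ x, f (Pi.single x 1) * z x := fun z => by
      conv_lhs => rw [← Finset.univ_sum_single z]
      rw [map_sum]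
      refine Finset.sum_congr rfl fun x _ => ?_
      have : (Pi.single x (z x) : I → ℂ) = z x • Pi.single x 1 := by
        rw [← Pi.single_smul, smul_eq_mul, mul_one]
      rw [this, map_smul, smul_eq_mul, mul_comm]
    let c : Fin n → ℂ := fun k => if h : k ∈ I then f (Pi.single ⟨k, h⟩ 1) else 0
    have hc : c = 0 := by
      refine hI c (fun k hk => dif_neg hk) fun u hu => ?_
      have h2 : f (Φ ⟨u, hu⟩) ∈ (LinearMap.range Φ).map f := ⟨_, ⟨_, rfl⟩, rfl⟩
      rw [hf] at h2
      have h3 : f (Φ ⟨u, hu⟩) = 0 := h2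
      rw [h1] at h3
      rw [← h3]
      have h4 : ∑ k, c k * u k = ∑ k ∈ I, c k * u k := by
        symm
        apply Finset.sum_subset (Finset.subset_univ _)
        intro k _ hk
        rw [show c k = 0 from dif_neg hk, zero_mul]
      rw [h4, ← Finset.sum_coe_sort I (fun k => c k * u k)]
      refine Finset.sum_congr rfl fun x _ => ?_
      have h5 : c x = f (Pi.single x 1) := dif_pos x.2
      rw [h5, hΦ]
    refine LinearMap.ext fun z => ?_
    rw [h1]
    refine Finset.sum_eq_zero fun x _ => ?_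
    have h5 : c x = f (Pi.single x 1) := dif_pos x.2
    rw [← h5, hc, Pi.zero_apply, zero_mul]
  have h6 : (Pi.single ⟨i, hi⟩ 1 : I → ℂ) ∈ LinearMap.range Φ := by rw [htop]; trivial
  obtain ⟨u, hu⟩ := h6
  refine ⟨u, u.2, ?_, fun j hj hji => ?_⟩
  · have := congrFun hu ⟨i, hi⟩
    rw [hΦ, Pi.single_eq_same] at this
    exact this
  · have := congrFun hu ⟨j, hj⟩
    rw [hΦ, Pi.single_eq_of_ne (fun h => hji (congrArg Subtype.val h))] at this
    exact this

/-- the structure theorem -/
theorem exists_struct (hJT : S_JorT) (hDel : S_Del) {p : Ideal (Rg n)} (hG : Grp tor p) :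
    ∃ (Ka Km : Finset (Fin n)) (lam : Fin n → Fin n → ℂ) (mu : Fin n → Fin n → ℤ),
      (∀ i ∈ Ka, tor i = false) ∧ (∀ i ∈ Km, tor i = true) ∧ Bas p (Ka ∪ Km)ᶜ ∧
      (∀ j ∈ Ka, lam j j = 1 ∧ (∀ i ∈ Ka, i ≠ j → lam j i = 0) ∧
        (∀ i, tor i = true → lam j i = 0) ∧ ∀ z, Pt tor p z → ∑ i, lam j i * z i = 0) ∧
      (∀ j ∈ Km, mu j j ≠ 0 ∧ (∀ i ∈ Km, i ≠ j → mu j i = 0) ∧
        (∀ i, tor i = false → mu j i = 0) ∧
        ∀ z, Pt tor p z → Complex.exp (∑ i, (mu j i : ℂ) * z i) = 1) := by
  classical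
  set A : Finset (Fin n) := Finset.univ.filter fun i => tor i = false with hA
  set B : Finset (Fin n) := Finset.univ.filter fun i => tor i = true with hB
  have memA : ∀ i, i ∈ A ↔ tor i = false := fun i => by simp [hA]
  have memB : ∀ i, i ∈ B ↔ tor i = true := fun i => by simp [hB]
  -- additive part
  let IndU : Finset (Fin n) → Prop := fun I => ∀ c : Fin n → ℂ, (∀ i, i ∉ I → c i = 0) →
    (∀ u ∈ Ua tor p, ∑ i, c i * u i = 0) → c = 0
  obtain ⟨Ia, hIa, hIamax⟩ := Finset.exists_max_image
    (A.powerset.filter IndU) Finset.card ⟨∅, Finset.mem_filter.2 ⟨Finset.empty_mem_powerset _,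
      fun c hc _ => funext fun i => hc i (Finset.notMem_empty i)⟩⟩
  obtain ⟨hIaA, hIaU⟩ := Finset.mem_filter.1 hIa
  rw [Finset.mem_powerset] at hIaA
  -- multiplicative part
  obtain ⟨Im, hIm, hImmax⟩ := Finset.exists_max_image
    (B.powerset.filter (NoM tor p)) Finset.card ⟨∅, Finset.mem_filter.2
      ⟨Finset.empty_mem_powerset _,
      fun c hc _ => funext fun i => hc i (Finset.notMem_empty i)⟩⟩
  obtain ⟨hImB, hImM⟩ := Finset.mem_filter.1 hIm
  rw [Finset.mem_powerset] at hImB
  -- linear forms
  have hlam : ∀ j, ∃ lam : Fin n → ℂ, j ∈ A \ Ia → lam j = 1 ∧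
      (∀ i, i ∉ Ia → i ≠ j → lam i = 0) ∧ (∀ u ∈ Ua tor p, ∑ i, lam i * u i = 0) := by
    intro j
    by_cases hj : j ∈ A \ Ia
    · rw [Finset.mem_sdiff] at hj
      have h1 : ¬ IndU (insert j Ia) := by
        intro h
        have h2 := hIamax (insert j Ia) (Finset.mem_filter.2 ⟨Finset.mem_powerset.2
          (Finset.insert_subset hj.1 hIaA), h⟩)
        rw [Finset.card_insert_of_notMem hj.2] at h2
        omega
      simp only [IndU] at h1
      push Not at h1
      obtain ⟨c, hc1, hc2, hc0⟩ := h1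
      have hcj : c j ≠ 0 := by
        intro h0
        apply hc0
        refine hIaU c (fun i hi => ?_) hc2
        by_cases hij : i = j
        · rw [hij]; exact h0
        · exact hc1 i (by rw [Finset.mem_insert]; tauto)
      refine ⟨fun i => (c j)⁻¹ * c i, fun _ => ⟨inv_mul_cancel₀ hcj, fun i hi hij => ?_,
        fun u hu => ?_⟩⟩
      · show (c j)⁻¹ * c i = 0
        rw [hc1 i (by rw [Finset.mem_insert]; tauto), mul_zero]
      · simp only [mul_assoc]
        rw [← Finset.mul_sum, hc2 u hu, mul_zero]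
    · exact ⟨0, fun h => absurd h hj⟩
  choose lam hlam using hlam
  -- characters
  have hmu : ∀ j, ∃ mu : Fin n → ℤ, j ∈ B \ Im → mu j ≠ 0 ∧
      (∀ i, i ∉ Im → i ≠ j → mu i = 0) ∧
      (∀ z, Pt tor p z → Complex.exp (∑ i, (mu i : ℂ) * z i) = 1) := by
    intro j
    by_cases hj : j ∈ B \ Im
    · rw [Finset.mem_sdiff] at hj
      have h1 : ¬ NoM tor p (insert j Im) := by
        intro h
        have h2 := hImmax (insert j Im) (Finset.mem_filter.2 ⟨Finset.mem_powerset.2
          (Finset.insert_subset hj.1 hImB), h⟩)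
        rw [Finset.card_insert_of_notMem hj.2] at h2
        omega
      simp only [NoM] at h1
      push Not at h1
      obtain ⟨c, hc1, hc2, hc0⟩ := h1
      refine ⟨c, fun _ => ⟨fun h0 => ?_, fun i hi hij => ?_, hc2⟩⟩
      · apply hc0
        refine hImM c (fun i hi => ?_) hc2
        by_cases hij : i = j
        · rw [hij]; exact h0
        · exact hc1 i (by rw [Finset.mem_insert]; tauto)
      · exact hc1 i (by rw [Finset.mem_insert]; tauto)
    · exact ⟨0, fun h => absurd h hj⟩
  choose mu hmu using hmu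
  have htorA : ∀ j i, j ∈ A \ Ia → tor i = true → lam j i = 0 := by
    intro j i hj hi
    refine (hlam j hj).2.1 i (fun h => ?_) (fun h => ?_)
    · have := (memA i).1 (hIaA h)
      rw [hi] at this
      exact Bool.noConfusion this
    · have := (memA j).1 (Finset.mem_sdiff.1 hj).1
      rw [← h, hi] at this
      exact Bool.noConfusion this
  have htorB : ∀ j i, j ∈ B \ Im → tor i = false → mu j i = 0 := by
    intro j i hj hi
    refine (hmu j hj).2.1 i (fun h => ?_) (fun h => ?_)
    · have := (memB i).1 (hImB h)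
      rw [hi] at this
      exact Bool.noConfusion this
    · have := (memB j).1 (Finset.mem_sdiff.1 hj).1
      rw [← h, hi] at this
      exact Bool.noConfusion this
  have hlamPt : ∀ j, j ∈ A \ Ia → ∀ z, Pt tor p z → ∑ i, lam j i * z i = 0 := by
    intro j hj z hz
    rw [← (hlam j hj).2.2 (addPart tor z) (Submodule.subset_span ⟨z, hz, rfl⟩)]
    refine Finset.sum_congr rfl fun i _ => ?_
    by_cases hi : tor i = true
    · rw [htorA j i hj hi, zero_mul, zero_mul]
    · rw [addPart, if_neg hi]
  -- complement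
  have hcompl : (A \ Ia ∪ B \ Im)ᶜ = Ia ∪ Im := by
    ext i
    simp only [Finset.mem_compl, Finset.mem_union, Finset.mem_sdiff, not_or, not_and, not_not,
      memA, memB]
    constructor
    · rintro ⟨h1, h2⟩
      rcases h : tor i with _ | _
      · exact Or.inl (h1 h)
      · exact Or.inr (h2 h)
    · rintro (h | h)
      · exact ⟨fun _ => h, fun h2 => by
          have := (memA i).1 (hIaA h)
          rw [h2] at this; exact Bool.noConfusion this⟩
      · exact ⟨fun h2 => by
          have := (memB i).1 (hImB h)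
          rw [h2] at this; exact Bool.noConfusion this, fun _ => h⟩
  refine ⟨A \ Ia, B \ Im, lam, mu, fun i hi => (memA i).1 (Finset.mem_sdiff.1 hi).1,
    fun i hi => (memB i).1 (Finset.mem_sdiff.1 hi).1, ?_, ?_, ?_⟩
  · rw [hcompl]
    -- independence
    have hInd : Ind p (Ia ∪ Im) := by
      have hm : Ind p Im := torInd hJT hG (fun i hi => (memB i).1 (hImB hi)) hImM
      have key : ∀ K : Finset (Fin n), K ⊆ Ia → Ind p (K ∪ Im) := by
        intro K
        induction K using Finset.induction_on with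
        | empty => intro _; rw [Finset.empty_union]; exact hm
        | insert i K hiK ih =>
          intro hK
          rw [Finset.insert_union]
          obtain ⟨hiI, hKI⟩ := Finset.insert_subset_iff.1 hK
          obtain ⟨u, hu, hui, huj⟩ := exists_dual (Ua tor p) Ia hIaU i hiI
          refine hDel n tor p u (Ua_le hJT hG hu) (fun j hj => Ua_tor hu hj) i
            ((memA i).1 (hIaA hiI)) (by rw [hui]; exact one_ne_zero) (K ∪ Im) (fun j hj => ?_)
            (ih hKI)
          rcases Finset.mem_union.1 hj with h | h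
          · exact huj j (hKI h) (by rintro rfl; exact hiK h)
          · exact Ua_tor hu ((memB j).1 (hImB h))
      exact key Ia (Finset.Subset.refl _)
    refine ⟨hInd, fun j hj hcon => ?_⟩
    have hjA : j ∈ A \ Ia ∪ B \ Im := by
      rw [← hcompl, Finset.mem_compl, not_not] at hj
      exact hj
    rcases Finset.mem_union.1 hjA with h | h
    · refine LF_ne (lam := lam j) (j := j) (by rw [(hlam j h).1]; exact one_ne_zero)
        (hcon _ (LF_vars fun i hi => ?_) (LF_mem hG (fun i hi => htorA j i h hi) (hlamPt j h)))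
      rw [Finset.mem_insert, Finset.mem_union] at hi
      push Not at hi
      exact (hlam j h).2.1 i hi.2.1 hi.1
    · refine BF_ne (mu := mu j) (j := j) (hmu j h).1
        (hcon _ (BF_vars fun i hi => ?_) (BF_mem hG (fun i hi => htorB j i h hi) (hmu j h).2.2))
      rw [Finset.mem_insert, Finset.mem_union] at hi
      push Not at hi
      exact (hmu j h).2.1 i hi.2.2 hi.1
  · intro j hj
    exact ⟨(hlam j hj).1, fun i hi hij => (hlam j hj).2.1 i (Finset.mem_sdiff.1 hi).2 hij,
      fun i hi => htorA j i hj hi, hlamPt j hj⟩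
  · intro j hj
    exact ⟨(hmu j hj).1, fun i hi hij => (hmu j hj).2.1 i (Finset.mem_sdiff.1 hi).2 hij,
      fun i hi => htorB j i hj hi, (hmu j hj).2.2⟩

end Trs2
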