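import Pool.Agent.Helper17.Trs2.Nss
import Pool.Agent.Helper37.PiE.ZFinal

/-!
# The local counting statement for any number of derivations
-/

namespace Trs2

open MvPolynomial Trs
open scoped Classical

theorem wd_map {n r e : ℕ} (tor : Fin n → Bool) (w : Fin r → Fin n → ℂ) (c : Fin e → Fin r)
    (l : List (Fin e)) (f : Rg n) :
    l.foldl (fun Q i => dr tor (w (c i)) Q) f = wd tor w (l.map c) f := by
  unfold wd
  rw [List.foldl_map]

theorem core (hTdim : S_Tdim) (n c σ e r : ℕ) (tor : Fin n → Bool) (w : Fin r → Fin n → ℂ)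
    (I : Finset (Fin n)) (hI : c + I.card = n) (he : e ≤ c) (d : Fin n → ℕ) (hd : ∀ i, 1 ≤ d i)
    (T : Type) [Fintype T] (q : T → Ideal (Rg n)) (hinj : Function.Injective q)
    (hp : ∀ t, (q t).IsPrime) (hh : ∀ t, (q t).height = c) (hInd : ∀ t, Ind (q t) I)
    (hWt : ∀ t, Wt tor w (q t) e) (V : Submodule ℂ (Rg n))
    (hmin : ∀ t, q t ∈ (Ideal.span (V : Set (Rg n))).minimalPrimes)
    (hjet : ∀ t, ∀ v ∈ V, ∀ l : List (Fin r), l.length ≤ σ → wd tor w l v ∈ q t)
    (hdeg : ∀ v ∈ V, ∀ i, v.degreeOf i ≤ d i) :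
    Fintype.card T * (σ + 1) ^ e ≤ KZ n * ∏ i ∈ Iᶜ, d i := by
  have hBas : ∀ t, Bas (q t) I := fun t => by
    obtain ⟨I', hII', hI'⟩ := Pool.Agent.Helper37.PiE.exists_bas (q t) (hInd t)
    have h1 := hTdim n (q t) (hp t) I' hI'
    rw [hh t] at h1
    have h2 : c + I'.card = n := by exact_mod_cast h1
    have h3 : I = I' := Finset.eq_of_subset_of_card_le hII' (by omega)
    rwa [h3]
  have hAlg : ∀ t, ∀ j, j ∉ I → ∃ U : Rg n, U ≠ 0 ∧ U.vars ⊆ insert j I ∧ U ∈ q t := by
    intro t j hj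
    have h1 := (hBas t).2 j hj
    rw [Ind] at h1
    push Not at h1
    obtain ⟨f, hf1, hf2, hf3⟩ := h1
    exact ⟨f, hf3, by convert hf1, hf2⟩
  have hKZ : c.factorial ≤ KZ n := by
    rw [KZ]
    calc c.factorial ≤ n.factorial := Nat.factorial_le (by omega)
      _ = 1 * n.factorial := (one_mul _).symm
      _ ≤ 2 ^ n * n.factorial := Nat.mul_le_mul_right _ Nat.one_le_two_pow
  choose cc z hz hdet using hWt
  have h1 := Pool.Agent.Helper37.PiE.core_main (r := e) (s := c - e) (T' := σ + 1) (by omega) tor I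
    (by omega) d hd q hinj hp hInd hAlg (fun t i => w (cc t i))
    (fun t => ⟨z t, hz t, hdet t⟩) V (fun f hf => hdeg f hf) hmin (fun t f hf l hl => by
      rw [wd_map]
      refine hjet t f hf _ ?_
      rw [List.length_map]
      omega)
  have e2 : e + (c - e) = c := by omega
  rw [e2] at h1
  exact h1.trans (Nat.mul_le_mul_right _ hKZ)

end Trs2
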