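import Pool.Agent.Helper17.Trs2.Bases

/-!
# The linear subgroup theorem for hyperplanes
-/

namespace Trs2

open MvPolynomial Trs

theorem main_thm (hJT : S_JorT) (hDel : S_Del) (hE : S_Engine) (hZ : S_Zero) : S_Main := by
  classical
  intro n m r tor γ w φ hφ hγφ hwφ hγ hw u a d s t hau hds ht hcount hshape
  obtain ⟨N0, hN0⟩ := hE n m r tor γ w φ hφ hγφ hwφ hγ hw u a d (s + 1) (t + 1)
    hau (by omega) ht hcount
  set N : ℕ := max N0 (max (4 * n + 1) (KZ n + 1)) with hN
  have hNN0 : N0 ≤ N := le_max_left _ _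
  have hN4 : 4 * n + 1 ≤ N := le_trans (le_max_left _ _) (le_max_right _ _)
  have hNK : KZ n + 1 ≤ N := le_trans (le_max_right _ _) (le_max_right _ _)
  have hN1 : 1 ≤ N := by omega
  obtain ⟨P, hP, hdeg, hvan⟩ := hN0 N hNN0
  obtain ⟨p, hG, hcnt⟩ := hZ n m r tor γ w (N ^ s) (N ^ t)
    (fun i => N ^ ex tor a d i) (fun i => Nat.one_le_pow _ _ hN1) P hP hdeg (by
      intro g hg l hl
      apply hvan g _ l
      · have h1 : 0 < N ^ t := Nat.pos_of_ne_zero (by positivity)
        calc l.length ≤ 2 * n * N ^ t := hl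
          _ < N * N ^ t := Nat.mul_lt_mul_of_pos_right (by omega) h1
          _ = N ^ (t + 1) := by ring
      · intro k
        refine ⟨(hg k).1, lt_of_le_of_lt (hg k).2 ?_⟩
        have h1 : 0 < N ^ s := Nat.pos_of_ne_zero (by positivity)
        have h2 : 4 * n * N ^ s < N ^ (s + 1) := by
          calc 4 * n * N ^ s < N * N ^ s := Nat.mul_lt_mul_of_pos_right (by omega) h1
            _ = N ^ (s + 1) := by ring
        exact_mod_cast h2)
  obtain ⟨Ka, Km, lam0, mu0, hKa, hKm, hBas, hlam, hmu⟩ := exists_struct hJT hDel hG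
  have hdisj : Disjoint Ka Km := by
    rw [Finset.disjoint_left]
    intro i hi hi'
    have h1 := hKa i hi
    rw [hKm i hi'] at h1
    exact Bool.noConfusion h1
  have hbasc : ((Ka ∪ Km)ᶜ)ᶜ = Ka ∪ Km := compl_compl _
  -- enumeration
  let εa : Fin Ka.card ≃ Ka := Ka.equivFin.symm
  let εm : Fin Km.card ≃ Km := Km.equivFin.symm
  set lam : Fin Ka.card → Fin n → ℂ := fun j => lam0 (εa j) with hlamd
  set mu : Fin Km.card → Fin n → ℤ := fun j => mu0 (εm j) with hmud
  have hlamLI : LinearIndependent ℂ lam := by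
    rw [Fintype.linearIndependent_iff]
    intro g hg j
    have h1 := congrFun hg (εa j : Fin n)
    rw [Finset.sum_apply, Finset.sum_eq_single j] at h1
    · simp only [hlamd, Pi.smul_apply, smul_eq_mul, Pi.zero_apply] at h1
      rw [(hlam _ (εa j).2).1, mul_one] at h1
      exact h1
    · intro k _ hk
      simp only [hlamd, Pi.smul_apply, smul_eq_mul]
      rw [(hlam _ (εa k).2).2.1 _ (εa j).2 (fun h => hk (εa.injective (Subtype.ext h)).symm),
        mul_zero]
    · intro h; exact absurd (Finset.mem_univ j) h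
  have hmuLI : LinearIndependent ℤ mu := by
    rw [Fintype.linearIndependent_iff]
    intro g hg j
    have h1 := congrFun hg (εm j : Fin n)
    rw [Finset.sum_apply, Finset.sum_eq_single j] at h1
    · simp only [hmud, Pi.smul_apply, smul_eq_mul, Pi.zero_apply] at h1
      exact (mul_eq_zero.1 h1).resolve_right (hmu _ (εm j).2).1
    · intro k _ hk
      simp only [hmud, Pi.smul_apply, smul_eq_mul]
      rw [(hmu _ (εm k).2).2.1 _ (εm j).2 (fun h => hk (εm.injective (Subtype.ext h)).symm),
        mul_zero]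
    · intro h; exact absurd (Finset.mem_univ j) h
  have hpos : 0 < Ka.card + Km.card := by
    rw [← Finset.card_union_of_disjoint hdisj, Finset.card_pos]
    by_contra hne
    rw [Finset.not_nonempty_iff_eq_empty] at hne
    rw [hne, Finset.compl_empty] at hBas
    exact not_Ind_univ hG.ne_bot hBas.1
  obtain ⟨Ax, Cx, hAx, hCx, hlt⟩ := hshape Ka.card Km.card lam mu hlamLI hmuLI
    (fun j i hi => (hlam _ (εa j).2).2.2.1 i hi) (fun j i hi => (hmu _ (εm j).2).2.2.1 i hi) hpos
  -- free axes
  have hfree : Free tor γ p Ax := by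
    intro g hg hst
    have hpt : Pt tor p (gp γ g) := (pt_iff hG).2 hst
    exact hAx g hg (fun j => (hlam _ (εa j).2).2.2.2 _ hpt) (fun j => (hmu _ (εm j).2).2.2.2 _ hpt)
  -- transversal derivations
  let εc : Fin Cx.card ≃ Cx := Cx.equivFin.symm
  let zz : Fin Ka.card ⊕ Fin Km.card → Rg n := Sum.elim (fun j => LF (lam j)) (fun j => BF (mu j))
  have hzz : ∀ x, zz x ∈ p := by
    rintro (j | j)
    · exact LF_mem hG (fun i hi => (hlam _ (εa j).2).2.2.1 i hi) (hlam _ (εa j).2).2.2.2
    · exact BF_mem hG (fun i hi => (hmu _ (εm j).2).2.2.1 i hi) (hmu _ (εm j).2).2.2.2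
  have hzd : ∀ x (v : Fin n → ℂ), ev tor 0 (dr tor v (zz x)) =
      Sum.elim (fun j => ∑ i, lam j i * v i) (fun j => ∑ i, (mu j i : ℂ) * v i) x := by
    rintro (j | j) v
    · exact dr_LF (fun i hi => (hlam _ (εa j).2).2.2.1 i hi) v
    · exact dr_BF (fun i hi => (hmu _ (εm j).2).2.2.1 i hi) v
  obtain ⟨σ, hσinj, hσ⟩ := exists_minor (fun (x : Fin Ka.card ⊕ Fin Km.card) (j : Fin Cx.card) =>
    ev tor 0 (dr tor (w (εc j)) (zz x))) (by
      intro x hx
      let y : Fin r → ℂ := fun k => if h : k ∈ Cx then x (εc.symm ⟨k, h⟩) else 0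
      have hy : ∀ j, y (εc j) = x j := fun j => by
        have h1 : y (εc j) = x (εc.symm ⟨(εc j : Fin r), (εc j).2⟩) := dif_pos (εc j).2
        rw [h1]
        simp
      have hsum : ∀ f : Fin n → ℂ, ∑ i, f i * (∑ k, y k * w k i) =
          ∑ j, (∑ i, f i * w (εc j) i) * x j := by
        intro f
        have h2 : ∀ i, ∑ k, y k * w k i = ∑ j, x j * w (εc j) i := by
          intro i
          have h3 : ∑ k, y k * w k i = ∑ k ∈ Cx, y k * w k i := by
            symm
            apply Finset.sum_subset (Finset.subset_univ _)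
            intro k _ hk
            rw [show y k = 0 from dif_neg hk, zero_mul]
          rw [h3, ← Finset.sum_coe_sort Cx (fun k => y k * w k i)]
          rw [← Equiv.sum_comp εc (fun k : Cx => y k * w k i)]
          exact Finset.sum_congr rfl fun j _ => by rw [hy]
        simp only [h2, Finset.mul_sum, Finset.sum_mul]
        rw [Finset.sum_comm]
        exact Finset.sum_congr rfl fun j _ => Finset.sum_congr rfl fun i _ => by ring
      have hy0 : y = 0 := by
        refine hCx y (fun k hk => dif_neg hk) (fun j => ?_) (fun j => ?_)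
        · rw [hsum]
          have h4 := hx (Sum.inl j)
          simp only [hzd, Sum.elim_inl] at h4
          exact h4
        · rw [hsum (fun i => (mu j i : ℂ))]
          have h4 := hx (Sum.inr j)
          simp only [hzd, Sum.elim_inr] at h4
          exact h4
      funext j
      rw [← hy j, hy0]
      rfl)
  have hwt : Wt tor w p Cx.card := by
    refine ⟨fun j => εc j, fun j => zz (σ j), fun j => hzz _, fun hmem => hσ ?_⟩
    have h1 := ev_zero_of_mem hG.le hmem
    rw [AlgHom.map_det] at h1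
    rw [← Matrix.det_transpose]
    refine Eq.trans ?_ h1
    congr 1
  have hcle : Cx.card ≤ ((Ka ∪ Km)ᶜ)ᶜ.card := by
    rw [hbasc, Finset.card_union_of_disjoint hdisj]
    have := Fintype.card_le_of_injective σ hσinj
    simpa using this
  have h1 := hcnt _ hBas Ax hfree Cx.card hcle hwt
  rw [hbasc] at h1
  have hsumex : ∑ i ∈ Ka ∪ Km, ex tor a d i = a * Ka.card + d * Km.card := by
    rw [Finset.sum_union hdisj]
    congr 1
    · rw [Finset.sum_congr rfl (g := fun _ => a), Finset.sum_const, smul_eq_mul, mul_comm]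
      intro i hi
      simp [ex, hKa i hi]
    · rw [Finset.sum_congr rfl (g := fun _ => d), Finset.sum_const, smul_eq_mul, mul_comm]
      intro i hi
      simp [ex, hKm i hi]
  rw [Finset.prod_pow_eq_pow_sum, hsumex] at h1
  have h2 : N ^ (s * Ax.card + t * Cx.card) ≤ KZ n * N ^ (a * Ka.card + d * Km.card) := by
    calc N ^ (s * Ax.card + t * Cx.card) = (N ^ s) ^ Ax.card * (N ^ t) ^ Cx.card := by
          rw [pow_add, pow_mul, pow_mul]
      _ ≤ (N ^ s + 1) ^ Ax.card * (N ^ t + 1) ^ Cx.card :=
          Nat.mul_le_mul (Nat.pow_le_pow_left (Nat.le_succ _) _)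
            (Nat.pow_le_pow_left (Nat.le_succ _) _)
      _ ≤ _ := h1
  have h3 : N ^ (a * Ka.card + d * Km.card + 1) ≤ N ^ (s * Ax.card + t * Cx.card) :=
    Nat.pow_le_pow_right hN1 hlt
  have h4 : 0 < N ^ (a * Ka.card + d * Km.card) := Nat.pos_of_ne_zero (by positivity)
  have h5 : N * N ^ (a * Ka.card + d * Km.card) ≤ KZ n * N ^ (a * Ka.card + d * Km.card) := by
    calc N * N ^ (a * Ka.card + d * Km.card) = N ^ (a * Ka.card + d * Km.card + 1) := by ring
      _ ≤ _ := h3
      _ ≤ _ := h2
  have h6 := Nat.le_of_mul_le_mul_right h5 h4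
  omega

end Trs2
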