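import Pool.Agent.Helper17.Trs2.Defs
import Pool.Agent.Helper47.Trs.Zero

/-!
# Stabilizers of prime ideals and connected algebraic subgroups
-/

namespace Trs2

open MvPolynomial Trs Trs.Z

variable {n : ℕ} {tor : Fin n → Bool}

theorem exists_pt (x : Fin n → ℂ) (hx : ∀ i, tor i = true → x i ≠ 0) :
    ∃ z : Fin n → ℂ, ∀ f : Rg n, ev tor z f = eval x f := by
  refine ⟨fun i => if tor i then Complex.log (x i) else x i, fun f => ?_⟩
  have h : (fun i => if tor i then Complex.exp ((fun i => if tor i then Complex.log (x i) else x i) i)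
      else (fun i => if tor i then Complex.log (x i) else x i) i) = x := by
    funext i
    by_cases hi : tor i = true
    · simp only [hi, if_true]
      exact Complex.exp_log (hx i hi)
    · simp only [hi]
      rfl
  unfold ev
  rw [h]
  rfl

/-- Nullstellensatz on the group -/
theorem nss {p : Ideal (Rg n)} (hp : p.IsPrime) (hpm : p ≤ RingHom.ker (ev tor 0)) {f : Rg n}
    (hf : ∀ z, p ≤ RingHom.ker (ev tor z) → ev tor z f = 0) : f ∈ p := by
  classical
  set m : Rg n := ∏ i, if tor i then X i else 1 with hm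
  have hmp : m ∉ p := by
    intro h
    obtain ⟨i, -, hi⟩ := (hp.prod_mem_iff).1 h
    split_ifs at hi with h1
    · have h2 := hpm hi
      rw [RingHom.mem_ker] at h2
      have h3 : ev tor 0 (X i) = 1 := by
        unfold ev
        rw [aeval_X]
        simp [h1]
      have h4 : (1 : ℂ) = 0 := h3.symm.trans h2
      exact one_ne_zero h4
    · exact hp.ne_top ((Ideal.eq_top_iff_one _).2 hi)
  have h1 : f * m ∈ vanishingIdeal ℂ (zeroLocus ℂ p) := by
    rw [mem_vanishingIdeal_iff]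
    intro x hx
    rw [map_mul]
    by_cases h0 : ∀ i, tor i = true → x i ≠ 0
    · obtain ⟨z, hz⟩ := exists_pt x h0
      have h2 := hf z (fun g hg => by
        rw [RingHom.mem_ker]
        have h3 := (mem_zeroLocus_iff.1 hx) g hg
        have h4 : ev tor z g = 0 := (hz g).trans h3
        exact h4)
      rw [hz] at h2
      have h5 : aeval x f = 0 := h2
      rw [h5, zero_mul]
    · push Not at h0
      obtain ⟨i, hi, hi0⟩ := h0
      have h2 : aeval x m = 0 := by
        rw [hm, map_prod]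
        refine Finset.prod_eq_zero (Finset.mem_univ i) ?_
        rw [if_pos hi, aeval_X, hi0]
      rw [h2, mul_zero]
  rw [IsPrime.vanishingIdeal_zeroLocus] at h1
  exact (hp.mem_or_mem h1).resolve_right hmp

/-- the pull-back of an ideal under a translation -/
noncomputable def pull (tor : Fin n → Bool) (v : Fin n → ℂ) (q : Ideal (Rg n)) : Ideal (Rg n) :=
  q.comap (trE tor v).toRingEquiv

theorem mem_pull {v : Fin n → ℂ} {q : Ideal (Rg n)} {f : Rg n} :
    f ∈ pull tor v q ↔ tr tor v f ∈ q := Iff.rfl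

theorem pull_prime {v : Fin n → ℂ} {q : Ideal (Rg n)} (hq : q.IsPrime) :
    (pull tor v q).IsPrime := Ideal.comap_isPrime _ _

theorem pull_height {v : Fin n → ℂ} {q : Ideal (Rg n)} : (pull tor v q).height = q.height :=
  RingEquiv.height_comap _ _

attribute [irreducible] pull

theorem finHt {p : Ideal (Rg n)} (hp : p.IsPrime) : p.FiniteHeight :=
  ⟨Or.inr (ne_top_of_le_ne_top (ENat.natCast_ne_top n) (height_le_n hp))⟩

/-- if a translation maps a prime ideal into itself, it stabilizes it -/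
theorem stb_of_le {p : Ideal (Rg n)} (hp : p.IsPrime) {v : Fin n → ℂ}
    (h : ∀ f ∈ p, tr tor v f ∈ p) : Stb tor p v := by
  have hqp : (pull tor v p).IsPrime := pull_prime hp
  have hle : p ≤ pull tor v p := fun f hf => mem_pull.2 (h f hf)
  have := finHt hp
  have heq : p = pull tor v p := Ideal.eq_of_le_of_height_le p hle pull_height.le
  intro f
  rw [← mem_pull, ← heq]

/-- covering lemma -/
theorem cover {P : Ideal (Rg n)} (hP : P.IsPrime) (hPm : P ≤ RingHom.ker (ev tor 0))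
    {ι : Type*} [Finite ι] (I : ι → Ideal (Rg n))
    (h : ∀ z, P ≤ RingHom.ker (ev tor z) → ∃ i, I i ≤ RingHom.ker (ev tor z)) :
    ∃ i, I i ≤ P := by
  classical
  have := Fintype.ofFinite ι
  by_contra hcon
  push Not at hcon
  have h1 : ∀ i, ∃ f, f ∈ I i ∧ f ∉ P := fun i => by
    by_contra h2
    push Not at h2
    exact hcon i h2
  choose f hf hfP using h1
  have h2 : ∏ i, f i ∉ P := by
    intro h3
    obtain ⟨i, -, hi⟩ := (hP.prod_mem_iff).1 h3
    exact hfP i hi
  refine h2 (nss hP hPm fun z hz => ?_)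
  obtain ⟨i, hi⟩ := h z hz
  rw [map_prod]
  exact Finset.prod_eq_zero (Finset.mem_univ i) (hi (hf i))

/-- the ideal of the stabilizer -/
noncomputable def Jst (tor : Fin n → Bool) (p : Ideal (Rg n)) : Ideal (Rg n) :=
  Ideal.span {g | ∃ z f, p ≤ RingHom.ker (ev tor z) ∧ f ∈ p ∧ g = tr tor z f}

theorem mem_Jst {p : Ideal (Rg n)} {z : Fin n → ℂ} {f : Rg n} (hz : p ≤ RingHom.ker (ev tor z))
    (hf : f ∈ p) : tr tor z f ∈ Jst tor p := Ideal.subset_span ⟨z, f, hz, hf, rfl⟩

theorem Jst_le {p : Ideal (Rg n)} : Jst tor p ≤ RingHom.ker (ev tor 0) := by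
  rw [Jst, Ideal.span_le]
  rintro _ ⟨z, f, hz, hf, rfl⟩
  rw [SetLike.mem_coe, RingHom.mem_ker]
  have h1 := hz hf
  rw [RingHom.mem_ker] at h1
  show ev tor 0 (tr tor z f) = 0
  rw [ev_tr, zero_add]
  exact h1

theorem le_Jst {p : Ideal (Rg n)} (hpm : p ≤ RingHom.ker (ev tor 0)) : p ≤ Jst tor p := by
  intro f hf
  have := mem_Jst hpm hf
  rwa [tr_zero] at this

theorem ev_zero_of_mem {q : Ideal (Rg n)} {z : Fin n → ℂ} (hz : q ≤ RingHom.ker (ev tor z))
    {f : Rg n} (hf : f ∈ q) : ev tor z f = 0 := hz hf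

/-- points of the stabilizer ideal stabilize -/
theorem stb_of_Jst {p : Ideal (Rg n)} (hp : p.IsPrime) (hpm : p ≤ RingHom.ker (ev tor 0))
    {z : Fin n → ℂ} (hz : Jst tor p ≤ RingHom.ker (ev tor z)) : Stb tor p z := by
  refine stb_of_le hp fun f hf => nss hp hpm fun z' hz' => ?_
  rw [ev_tr, add_comm, ← ev_tr]
  exact ev_zero_of_mem hz (mem_Jst hz' hf)

theorem Stb_neg {p : Ideal (Rg n)} {v : Fin n → ℂ} (h : Stb tor p v) : Stb tor p (-v) := by
  intro f
  have h1 := h (tr tor (-v) f)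
  rw [tr_tr_neg] at h1
  exact h1.symm

theorem Jst_stable {p : Ideal (Rg n)} {v : Fin n → ℂ} (h : Stb tor p v) {f : Rg n}
    (hf : f ∈ Jst tor p) : tr tor v f ∈ Jst tor p := by
  have key : ∀ z f, p ≤ RingHom.ker (ev tor z) → f ∈ p →
      tr tor v (tr tor z f) ∈ Jst tor p := by
    intro z f hz hf
    rw [tr_tr, add_comm]
    refine mem_Jst (fun g hg => ?_) hf
    have h2 : ev tor (z + v) g = 0 := by
      rw [← ev_tr]
      exact ev_zero_of_mem hz ((h g).1 hg)
    exact h2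
  have h1 : Jst tor p ≤ pull tor v (Jst tor p) := by
    refine Ideal.span_le.2 ?_
    rintro _ ⟨z, f, hz, hf, rfl⟩
    exact mem_pull.2 (key z f hz hf)
  exact mem_pull.1 (h1 hf)

/-- translated minimal primes -/
theorem minimalPrimes_tr {p q : Ideal (Rg n)} {v : Fin n → ℂ} (h : Stb tor p v)
    (hq : q ∈ (Jst tor p).minimalPrimes) : ∃ q' ∈ (Jst tor p).minimalPrimes,
      ∀ f, f ∈ q' ↔ tr tor v f ∈ q := by
  obtain ⟨⟨hqp, hqJ⟩, hqmin⟩ := hq
  refine ⟨pull tor v q, ⟨⟨pull_prime hqp, ?_⟩, ?_⟩, fun f => mem_pull⟩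
  · intro f hf
    exact mem_pull.2 (hqJ (Jst_stable h hf))
  · rintro q1 ⟨hq1, hJ1⟩ hle
    have h2 : pull tor (-v) q1 ≤ q := by
      intro f hf
      have h4 := mem_pull.1 (hle (mem_pull.1 hf))
      rwa [tr_tr_neg] at h4
    have h5 : Jst tor p ≤ pull tor (-v) q1 := by
      intro f hf
      exact mem_pull.2 (hJ1 (Jst_stable (Stb_neg h) hf))
    have h6 := hqmin ⟨pull_prime hq1, h5⟩ h2
    intro f hf
    have h8 := mem_pull.1 (h6 (mem_pull.1 hf))
    rwa [tr_neg_tr] at h8

/-- the identity component of the stabilizer -/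
theorem grp_of_min {p p' : Ideal (Rg n)} (hp : p.IsPrime) (hpb : p ≠ ⊥)
    (hpm : p ≤ RingHom.ker (ev tor 0)) (hp' : p' ∈ (Jst tor p).minimalPrimes)
    (hpm' : p' ≤ RingHom.ker (ev tor 0)) : Grp tor p' := by
  have hp'p : p'.IsPrime := hp'.1.1
  have hJ : Jst tor p ≤ p' := hp'.1.2
  have hb : p' ≠ ⊥ := by
    intro h
    apply hpb
    rw [eq_bot_iff, ← h]
    exact (le_Jst hpm).trans hJ
  refine ⟨hp'p, hb, hpm', ?_⟩
  have hfin : Finite (Jst tor p).minimalPrimes :=
    (Ideal.finite_minimalPrimes_of_isNoetherianRing _ (Jst tor p)).to_subtype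
  obtain ⟨⟨q, hq⟩, hqle⟩ := cover hp'p hpm' (ι := (Jst tor p).minimalPrimes)
    (fun q => Ideal.span {g | ∃ v f, p' ≤ RingHom.ker (ev tor v) ∧ f ∈ (q : Ideal (Rg n)) ∧
      g = tr tor v f}) (fun z hz => by
        obtain ⟨q', hq', hq'mem⟩ := minimalPrimes_tr (stb_of_Jst hp hpm (hJ.trans hz)) hp'
        refine ⟨⟨q', hq'⟩, ?_⟩
        rw [Ideal.span_le]
        rintro _ ⟨v, f, hv, hf, rfl⟩
        rw [SetLike.mem_coe, RingHom.mem_ker]
        show ev tor z (tr tor v f) = 0
        rw [ev_tr, add_comm, ← ev_tr]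
        exact ev_zero_of_mem hv ((hq'mem f).1 hf))
  have h1 : ∀ v, p' ≤ RingHom.ker (ev tor v) → ∀ f ∈ q, tr tor v f ∈ p' := fun v hv f hf =>
    hqle (Ideal.subset_span ⟨v, f, hv, hf, rfl⟩)
  have h2 : q ≤ p' := by
    intro f hf
    have := h1 0 hpm' f hf
    rwa [tr_zero] at this
  have h3 : q = p' := le_antisymm h2 (hp'.2 ⟨hq.1.1, hq.1.2⟩ h2)
  intro z hz
  refine stb_of_le hp'p fun f hf => h1 z hz f ?_
  rw [h3]
  exact hf

end Trs2
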