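import Pool.Agent.Helper17.Trs2.Zero
import Pool.Agent.Helper17.Trs.Basic
import Pool.Agent.Helper79.Trs.Jor
import Pool.Agent.Helper50.Trs.Jet

/-!
# Structure of the ideals of connected algebraic subgroups
-/

namespace Trs2

open MvPolynomial Trs
open Pool.Agent.Helper50.TrsE (mo fr ad da dt ev_mo dr_mo e0_mo)

variable {n : ℕ} {tor : Fin n → Bool}

/-- the exponential of `z` is a point of the subgroup -/
def Pt (tor : Fin n → Bool) (p : Ideal (Rg n)) (z : Fin n → ℂ) : Prop :=
  p ≤ RingHom.ker (ev tor z)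

theorem pt_iff {p : Ideal (Rg n)} (hG : Grp tor p) {z : Fin n → ℂ} : Pt tor p z ↔ Stb tor p z := by
  refine ⟨hG.stb z, fun h f hf => ?_⟩
  have h1 := ev_zero_of_mem hG.le ((h f).1 hf)
  rw [Trs.ev_tr, zero_add] at h1
  exact h1

theorem Grp.ne_top {p : Ideal (Rg n)} (hG : Grp tor p) : p ≠ ⊤ := hG.prime.ne_top

/-! ### derivations stabilizing an ideal -/

/-- the space of stabilizing derivations -/
noncomputable def Dp (tor : Fin n → Bool) (p : Ideal (Rg n)) : Submodule ℂ (Fin n → ℂ) where
  carrier := {v | Dst tor v p}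
  add_mem' := fun {a b} ha hb f hf => by
    rw [dr_add, Derivation.add_apply]
    exact p.add_mem (ha f hf) (hb f hf)
  zero_mem' := fun f hf => by
    rw [dr_zero]
    exact p.zero_mem
  smul_mem' := fun c v hv f hf => by
    rw [dr_smul, Derivation.smul_apply, smul_eq_C_mul]
    exact p.mul_mem_left _ (hv f hf)

theorem mem_Dp {p : Ideal (Rg n)} {v : Fin n → ℂ} : v ∈ Dp tor p ↔ Dst tor v p := Iff.rfl

/-- span of the additive parts of the points -/
noncomputable def Ua (tor : Fin n → Bool) (p : Ideal (Rg n)) : Submodule ℂ (Fin n → ℂ) :=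
  Submodule.span ℂ {u | ∃ z, Pt tor p z ∧ u = addPart tor z}

theorem Ua_le (hJT : S_JorT) {p : Ideal (Rg n)} (hG : Grp tor p) : Ua tor p ≤ Dp tor p := by
  refine Submodule.span_le.2 ?_
  rintro _ ⟨z, hz, rfl⟩
  exact (hJT n tor p z ((pt_iff hG).1 hz)).1

theorem Ua_tor {p : Ideal (Rg n)} {u : Fin n → ℂ} (hu : u ∈ Ua tor p) {i : Fin n}
    (hi : tor i = true) : u i = 0 := by
  refine Submodule.span_induction (p := fun u _ => u i = 0) ?_ rfl ?_ ?_ hu
  · rintro _ ⟨z, hz, rfl⟩
    simp [addPart, hi]
  · intro a b _ _ ha hb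
    rw [Pi.add_apply, ha, hb, add_zero]
  · intro c a _ ha
    rw [Pi.smul_apply, ha, smul_zero]

/-! ### linear forms -/

/-- the linear form as a polynomial -/
noncomputable def LF (lam : Fin n → ℂ) : Rg n := ∑ i, C (lam i) * X i

theorem ev_LF {lam : Fin n → ℂ} (hl : ∀ i, tor i = true → lam i = 0) (z : Fin n → ℂ) :
    ev tor z (LF lam) = ∑ i, lam i * z i := by
  rw [LF, map_sum]
  refine Finset.sum_congr rfl fun i _ => ?_
  rw [map_mul, ev_C, ev_X]
  by_cases h : tor i = true
  · rw [hl i h]; simp
  · rw [if_neg h]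

theorem dr_LF {lam : Fin n → ℂ} (hl : ∀ i, tor i = true → lam i = 0) (w : Fin n → ℂ) :
    ev tor 0 (dr tor w (LF lam)) = ∑ i, lam i * w i := by
  rw [LF, map_sum, map_sum]
  refine Finset.sum_congr rfl fun i _ => ?_
  rw [Derivation.leibniz, dr_C, smul_zero, add_zero, smul_eq_mul, map_mul, ev_C, dr_X]
  by_cases h : tor i = true
  · rw [hl i h]; simp
  · rw [if_neg h, ev_C]

theorem LF_mem {p : Ideal (Rg n)} (hG : Grp tor p) {lam : Fin n → ℂ}
    (hl : ∀ i, tor i = true → lam i = 0) (h : ∀ z, Pt tor p z → ∑ i, lam i * z i = 0) :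
    LF lam ∈ p :=
  nss hG.prime hG.le fun z hz => by rw [ev_LF hl]; exact h z hz

theorem LF_vars {lam : Fin n → ℂ} {I : Finset (Fin n)} (h : ∀ i, i ∉ I → lam i = 0) :
    (LF lam).vars ⊆ I := by
  classical
  intro i hi
  rw [LF] at hi
  have h1 := MvPolynomial.vars_sum_subset _ _ hi
  obtain ⟨j, -, hj⟩ := Finset.mem_biUnion.1 h1
  by_cases h0 : lam j = 0
  · rw [h0] at hj
    simp at hj
  · have h2 := MvPolynomial.vars_mul _ _ hj
    rw [MvPolynomial.vars_C, Finset.empty_union, MvPolynomial.vars_X, Finset.mem_singleton] at h2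
    subst h2
    by_contra h3
    exact h0 (h _ h3)

theorem LF_ne {lam : Fin n → ℂ} {j : Fin n} (h : lam j ≠ 0) : LF lam ≠ 0 := by
  classical
  intro h0
  have h1 := congrArg (fun f => eval (Pi.single j 1) f) h0
  simp only [LF, map_sum, map_mul, eval_C, eval_X, map_zero] at h1
  rw [Finset.sum_eq_single j] at h1
  · rw [Pi.single_eq_same, mul_one] at h1
    exact h h1
  · intro i _ hi
    rw [Pi.single_eq_of_ne hi, mul_zero]
  · intro h2
    exact absurd (Finset.mem_univ j) h2

/-! ### characters -/

/-- positive part of the exponent -/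
noncomputable def ep (mu : Fin n → ℤ) : Fin n →₀ ℕ :=
  Finsupp.equivFunOnFinite.symm fun i => (mu i).toNat

theorem ep_apply (mu : Fin n → ℤ) (i : Fin n) : ep mu i = (mu i).toNat := rfl

/-- the binomial attached to a character -/
noncomputable def BF (mu : Fin n → ℤ) : Rg n := mo (ep mu) - mo (ep (-mu))

theorem ev_mo_tor {s : Fin n →₀ ℕ} (hs : ∀ i, tor i = false → s i = 0) (z : Fin n → ℂ) :
    ev tor z (mo s) = Complex.exp (∑ i, (s i : ℂ) * z i) := by
  rw [ev_mo]
  have h1 : ad tor s z = 1 := by
    unfold ad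
    refine Finset.prod_eq_one fun i _ => ?_
    rcases h : tor i with _ | _
    · rw [if_neg (by simp), hs i h, pow_zero]
    · rw [if_pos rfl]
  have h2 : fr tor s z = ∑ i, (s i : ℂ) * z i := by
    unfold fr
    refine Finset.sum_congr rfl fun i _ => ?_
    rcases h : tor i with _ | _
    · rw [if_neg (by simp), hs i h]; simp
    · rw [if_pos rfl]
  rw [h1, h2, one_mul]

theorem dr_mo_tor {s : Fin n →₀ ℕ} (hs : ∀ i, tor i = false → s i = 0) (w : Fin n → ℂ) :
    ev tor 0 (dr tor w (mo s)) = ∑ i, (s i : ℂ) * w i := by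
  rw [dr_mo]
  have h2 : fr tor s w = ∑ i, (s i : ℂ) * w i := by
    unfold fr
    refine Finset.sum_congr rfl fun i _ => ?_
    rcases h : tor i with _ | _
    · rw [if_neg (by simp), hs i h]; simp
    · rw [if_pos rfl]
  have h3 : ∑ i, (if tor i then 0 else (s i : ℂ) * w i) • (mo (s - Finsupp.single i 1) : Rg n) = 0 := by
    refine Finset.sum_eq_zero fun i _ => ?_
    rcases h : tor i with _ | _
    · rw [if_neg (by simp), hs i h]; simp
    · rw [if_pos rfl, zero_smul]
  rw [h3, add_zero, map_smul, ev_mo_tor hs, h2]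
  simp

theorem ep_tor {mu : Fin n → ℤ} (hm : ∀ i, tor i = false → mu i = 0) (i : Fin n)
    (hi : tor i = false) : ep mu i = 0 := by
  rw [ep_apply, hm i hi]; rfl

theorem sum_ep (mu : Fin n → ℤ) (z : Fin n → ℂ) :
    ∑ i, (ep mu i : ℂ) * z i - ∑ i, (ep (-mu) i : ℂ) * z i = ∑ i, (mu i : ℂ) * z i := by
  rw [← Finset.sum_sub_distrib]
  refine Finset.sum_congr rfl fun i _ => ?_
  rw [ep_apply, ep_apply, Pi.neg_apply, ← sub_mul]
  congr 1
  have h : ((mu i).toNat : ℤ) - ((-mu i).toNat : ℤ) = mu i := Int.toNat_sub_toNat_neg (mu i)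
  have h2 := congrArg (Int.cast : ℤ → ℂ) h
  push_cast at h2
  exact h2

theorem dr_BF {mu : Fin n → ℤ} (hm : ∀ i, tor i = false → mu i = 0) (w : Fin n → ℂ) :
    ev tor 0 (dr tor w (BF mu)) = ∑ i, (mu i : ℂ) * w i := by
  have hm' : ∀ i, tor i = false → (-mu) i = 0 := fun i hi => by
    rw [Pi.neg_apply, hm i hi, neg_zero]
  rw [BF, map_sub, map_sub, dr_mo_tor (ep_tor hm), dr_mo_tor (ep_tor hm'), sum_ep]

theorem BF_mem {p : Ideal (Rg n)} (hG : Grp tor p) {mu : Fin n → ℤ}
    (hm : ∀ i, tor i = false → mu i = 0)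
    (h : ∀ z, Pt tor p z → Complex.exp (∑ i, (mu i : ℂ) * z i) = 1) : BF mu ∈ p :=
  nss hG.prime hG.le fun z hz => by
    have hm' : ∀ i, tor i = false → (-mu) i = 0 := fun i hi => by
      rw [Pi.neg_apply, hm i hi, neg_zero]
    rw [BF, map_sub, ev_mo_tor (ep_tor hm), ev_mo_tor (ep_tor hm')]
    have h1 := h z hz
    rw [← sum_ep, Complex.exp_sub, div_eq_one_iff_eq (Complex.exp_ne_zero _)] at h1
    rw [h1, sub_self]

theorem BF_vars {mu : Fin n → ℤ} {I : Finset (Fin n)} (h : ∀ i, i ∉ I → mu i = 0) :
    (BF mu).vars ⊆ I := by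
  classical
  have key : ∀ nu : Fin n → ℤ, (∀ i, i ∉ I → nu i = 0) → (mo (ep nu) : Rg n).vars ⊆ I := by
    intro nu hnu i hi
    rw [mo, MvPolynomial.vars_monomial one_ne_zero, Finsupp.mem_support_iff, ep_apply] at hi
    by_contra h1
    exact hi (by rw [hnu i h1]; rfl)
  intro i hi
  have h1 := MvPolynomial.vars_sub_subset _ hi
  rcases Finset.mem_union.1 h1 with h2 | h2
  · exact key mu h h2
  · exact key (-mu) (fun i hi => by rw [Pi.neg_apply, h i hi, neg_zero]) h2

theorem BF_ne {mu : Fin n → ℤ} {j : Fin n} (h : mu j ≠ 0) : BF mu ≠ 0 := by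
  intro h0
  rw [BF, sub_eq_zero, mo, mo] at h0
  have h1 := (MvPolynomial.monomial_left_injective (R := ℂ) one_ne_zero) h0
  have h2 := DFunLike.congr_fun h1 j
  rw [ep_apply, ep_apply, Pi.neg_apply] at h2
  omega

/-! ### independence of torus coordinates -/

/-- no nontrivial character supported on `I` is trivial on the subgroup -/
def NoM (tor : Fin n → Bool) (p : Ideal (Rg n)) (I : Finset (Fin n)) : Prop :=
  ∀ mu : Fin n → ℤ, (∀ i, i ∉ I → mu i = 0) →
    (∀ z, Pt tor p z → Complex.exp (∑ i, (mu i : ℂ) * z i) = 1) → mu = 0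

theorem torInd (hJT : S_JorT) {p : Ideal (Rg n)} (hG : Grp tor p) {I : Finset (Fin n)}
    (hI : ∀ i ∈ I, tor i = true) (hN : NoM tor p I) : Ind p I := by
  classical
  have key : ∀ k : ℕ, ∀ f : Rg n, f.support.card = k → f.vars ⊆ I → f ∈ p → f = 0 := by
    intro k
    induction k using Nat.strong_induction_on with
    | _ k ih =>
      intro f hk hv hf
      by_contra hf0
      obtain ⟨α, hα⟩ : ∃ α, α ∈ f.support := by
        have := MvPolynomial.support_nonempty.2 hf0
        exact this
      have hsupp : ∀ β ∈ f.support, ∀ i, i ∉ I → β i = 0 := by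
        intro β hβ i hi
        by_contra h
        exact hi (hv ((MvPolynomial.mem_vars_iff_mem_support i).2 ⟨β, hβ, Finsupp.mem_support_iff.2 h⟩))
      by_cases hsing : ∃ β ∈ f.support, β ≠ α
      · obtain ⟨β, hβ, hβα⟩ := hsing
        have hmu : (fun i => (α i : ℤ) - (β i : ℤ)) ≠ 0 := by
          intro h0
          apply hβα
          ext i
          have := congrFun h0 i
          simp only [Pi.zero_apply] at this
          omega
        obtain ⟨z, hz, hze⟩ : ∃ z, Pt tor p z ∧
            Complex.exp (∑ i, (((α i : ℤ) - (β i : ℤ) : ℤ) : ℂ) * z i) ≠ 1 := by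
          by_contra hcon
          push Not at hcon
          refine hmu (hN _ (fun i hi => ?_) (fun z hz => hcon z hz))
          rw [hsupp α hα i hi, hsupp β hβ i hi]
          simp
        have hst : Stb tor p (mulPart tor z) := (hJT n tor p z ((pt_iff hG).1 hz)).2
        have hwt : ∀ δ ∈ f.support, H79.wt tor z δ = ∑ i, (δ i : ℂ) * z i := by
          intro δ hδ
          rw [H79.wt]
          refine Finset.sum_congr rfl fun i _ => ?_
          by_cases hi : i ∈ I
          · simp [mulPart, hI i hi]
          · rw [hsupp δ hδ i hi]; simp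
        set g : Rg n := tr tor (mulPart tor z) f - Complex.exp (H79.wt tor z α) • f with hg
        have hgp : g ∈ p := by
          rw [hg, smul_eq_C_mul]
          exact p.sub_mem ((hst f).1 hf) (p.mul_mem_left _ hf)
        have hcoeff : ∀ δ, coeff δ g =
            (Complex.exp (H79.wt tor z δ) - Complex.exp (H79.wt tor z α)) * coeff δ f := by
          intro δ
          have h1 : tr tor (mulPart tor z) f = ∑ ε ∈ f.support,
              Complex.exp (H79.wt tor z ε) • monomial ε (coeff ε f) := by
            conv_lhs => rw [f.as_sum]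
            rw [map_sum]
            exact Finset.sum_congr rfl fun ε _ => H79.tr_mulPart_monomial tor z ε _
          rw [hg, coeff_sub, coeff_smul, h1, coeff_sum]
          simp only [coeff_smul, coeff_monomial, smul_eq_mul]
          rw [Finset.sum_eq_single δ]
          · rw [if_pos rfl]; ring
          · intro b _ hb
            rw [if_neg hb, mul_zero]
          · intro h
            rw [MvPolynomial.notMem_support_iff.1 h]; simp
        have hgs : g.support ⊆ f.support.erase α := by
          intro δ hδ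
          rw [MvPolynomial.mem_support_iff, hcoeff] at hδ
          rw [Finset.mem_erase, MvPolynomial.mem_support_iff]
          refine ⟨?_, right_ne_zero_of_mul hδ⟩
          rintro rfl
          exact hδ (by rw [sub_self, zero_mul])
        have hgv : g.vars ⊆ I := by
          intro i hi
          obtain ⟨δ, hδ, hδi⟩ := (MvPolynomial.mem_vars_iff_mem_support i).1 hi
          have h3 := Finset.mem_of_mem_erase (hgs hδ)
          by_contra h4
          exact (Finsupp.mem_support_iff.1 hδi) (hsupp δ h3 i h4)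
        have hlt : g.support.card < k := by
          rw [← hk]
          exact lt_of_le_of_lt (Finset.card_le_card hgs) (Finset.card_erase_lt_of_mem hα)
        have hg0 := ih _ hlt g rfl hgv hgp
        have h5 := hcoeff β
        rw [hg0, coeff_zero] at h5
        rcases mul_eq_zero.1 h5.symm with h6 | h6
        · apply hze
          rw [sub_eq_zero, hwt β hβ, hwt α hα] at h6
          have h7 : ∑ i, (((α i : ℤ) - (β i : ℤ) : ℤ) : ℂ) * z i =
              ∑ i, (α i : ℂ) * z i - ∑ i, (β i : ℂ) * z i := by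
            rw [← Finset.sum_sub_distrib]
            refine Finset.sum_congr rfl fun i _ => ?_
            push_cast
            ring
          rw [h7, Complex.exp_sub, ← h6, div_self (Complex.exp_ne_zero _)]
        · exact (MvPolynomial.mem_support_iff.1 hβ) h6
      · push Not at hsing
        have h1 : f = monomial α (coeff α f) := by
          conv_lhs => rw [f.as_sum]
          rw [Finset.sum_eq_single α]
          · intro b hb hne
            exact absurd (hsing b hb) hne
          · intro h; exact absurd hα h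
        have h2 := ev_zero_of_mem hG.le hf
        rw [h1] at h2
        have h3 : (monomial α (coeff α f) : Rg n) = coeff α f • mo α := by
          rw [mo, smul_monomial, smul_eq_mul, mul_one]
        rw [h3, map_smul, ev_mo_tor (fun i hi => hsupp α hα i (fun h => by
          rw [hI i h] at hi; exact Bool.noConfusion hi))] at h2
        simp at h2
        exact (MvPolynomial.mem_support_iff.1 hα) h2
  intro f hv hf
  exact key _ f rfl hv hf

end Trs2
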