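import Pool.Agent.Helper17.Trs2.Core

/-!
# The zero lemma with connected algebraic subgroups
-/

namespace Trs2

open MvPolynomial Trs Trs.Z

/-! ### words -/

section wd
variable {n r : ℕ} (tor : Fin n → Bool) (w : Fin r → Fin n → ℂ)

theorem wd_nil (f : Rg n) : wd tor w [] f = f := rfl

theorem wd_cons (a : Fin r) (l : List (Fin r)) (f : Rg n) :
    wd tor w (a :: l) f = wd tor w l (dr tor (w a) f) := rfl

theorem wd_tr (v : Fin n → ℂ) (l : List (Fin r)) : ∀ f : Rg n,
    wd tor w l (tr tor v f) = tr tor v (wd tor w l f) := by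
  induction l with
  | nil => intro f; rfl
  | cons a l ih => intro f; rw [wd_cons, wd_cons, dr_tr, ih]

theorem wd_append (l l' : List (Fin r)) (f : Rg n) :
    wd tor w l' (wd tor w l f) = wd tor w (l ++ l') f := by
  unfold wd
  rw [List.foldl_append]

theorem wd_deg (l : List (Fin r)) (i : Fin n) : ∀ f : Rg n,
    (wd tor w l f).degreeOf i ≤ f.degreeOf i := by
  induction l with
  | nil => intro f; exact le_rfl
  | cons a l ih => intro f; rw [wd_cons]; exact (ih _).trans (deg_dr tor _ i f)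

theorem wd_add (l : List (Fin r)) : ∀ f g : Rg n,
    wd tor w l (f + g) = wd tor w l f + wd tor w l g := by
  induction l with
  | nil => intro f g; rfl
  | cons a l ih => intro f g; rw [wd_cons, wd_cons, wd_cons, map_add, ih]

theorem wd_smul (l : List (Fin r)) (a : ℂ) : ∀ f : Rg n,
    wd tor w l (a • f) = a • wd tor w l f := by
  induction l with
  | nil => intro f; rfl
  | cons b l ih => intro f; rw [wd_cons, wd_cons, Derivation.map_smul, ih]

end wd

variable {n m r : ℕ} (tor : Fin n → Bool) (γ : Fin m → Fin n → ℂ) (w : Fin r → Fin n → ℂ)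
  (S σ : ℕ) (P : Rg n)

/-- the generators -/
def Gen (k : ℕ) : Set (Rg n) :=
  {f | ∃ (g : Fin m → ℤ) (l : List (Fin r)), (∀ j, |g j| ≤ k * S) ∧ l.length ≤ k * σ ∧
    f = tr tor (gp γ g) (wd tor w l P)}

theorem self_mem_Gen (k : ℕ) : P ∈ Gen tor γ w S σ P k :=
  ⟨0, [], fun k => by rw [Pi.zero_apply, abs_zero]; positivity, Nat.zero_le _, by
    rw [gp_zero, tr_zero]; rfl⟩

theorem Gen_mono {k k' : ℕ} (h : k ≤ k') : Gen tor γ w S σ P k ⊆ Gen tor γ w S σ P k' := by
  rintro f ⟨g, l, h1, h2, rfl⟩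
  refine ⟨g, l, fun k => (h1 k).trans ?_, h2.trans (Nat.mul_le_mul_right _ h), rfl⟩
  exact_mod_cast Nat.mul_le_mul_right S h

theorem Gen_step {k : ℕ} {f : Rg n} (hf : f ∈ Gen tor γ w S σ P k) (h : Fin m → ℤ)
    (hh : ∀ j, |h j| ≤ S) (l' : List (Fin r)) (hl : l'.length ≤ σ) :
    tr tor (gp γ h) (wd tor w l' f) ∈ Gen tor γ w S σ P (k + 1) := by
  obtain ⟨g, l, h1, h2, rfl⟩ := hf
  refine ⟨h + g, l ++ l', fun j => ?_, ?_, ?_⟩
  · rw [Pi.add_apply]
    refine (abs_add_le _ _).trans ?_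
    have := h1 j
    have := hh j
    push_cast
    linarith
  · rw [List.length_append, add_mul, one_mul]
    omega
  · rw [wd_tr, tr_tr, ← gp_add, wd_append]

theorem Gen_step' {k : ℕ} {f : Rg n} (hf : f ∈ Gen tor γ w S σ P k) (h : Fin m → ℤ)
    (hh : ∀ j, |h j| ≤ S) : tr tor (gp γ h) f ∈ Gen tor γ w S σ P (k + 1) :=
  Gen_step tor γ w S σ P hf h hh [] (Nat.zero_le _)

theorem deg_Gen {k : ℕ} {f : Rg n} (hf : f ∈ Gen tor γ w S σ P k) (i : Fin n) :
    f.degreeOf i ≤ P.degreeOf i := by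
  obtain ⟨g, l, h1, h2, rfl⟩ := hf
  exact (deg_tr _ _ _ _).trans (wd_deg tor w l i P)

/-- the ideals -/
noncomputable def J (k : ℕ) : Ideal (Rg n) := Ideal.span (Gen tor γ w S σ P k)

theorem J_mono {k k' : ℕ} (h : k ≤ k') : J tor γ w S σ P k ≤ J tor γ w S σ P k' :=
  Ideal.span_mono (Gen_mono tor γ w S σ P h)

theorem J_le_iff {k : ℕ} {q : Ideal (Rg n)} :
    J tor γ w S σ P k ≤ q ↔ ∀ f ∈ Gen tor γ w S σ P k, f ∈ q := Ideal.span_le

/-- minimal height of the primes between `J k` and the ideal of the neutral element -/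
noncomputable def hh (k : ℕ) : ℕ∞ :=
  sInf {x | ∃ q : Ideal (Rg n), q.IsPrime ∧ J tor γ w S σ P k ≤ q ∧
    q ≤ RingHom.ker (ev tor 0) ∧ q.height = x}

theorem hh_le {k : ℕ} {q : Ideal (Rg n)} (hq : q.IsPrime) (h1 : J tor γ w S σ P k ≤ q)
    (h2 : q ≤ RingHom.ker (ev tor 0)) : hh tor γ w S σ P k ≤ q.height :=
  sInf_le ⟨q, hq, h1, h2, rfl⟩

theorem exists_hh {k : ℕ} (h : J tor γ w S σ P k ≤ RingHom.ker (ev tor 0)) :
    ∃ q : Ideal (Rg n), q.IsPrime ∧ J tor γ w S σ P k ≤ q ∧
    q ≤ RingHom.ker (ev tor 0) ∧ q.height = hh tor γ w S σ P k :=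
  csInf_mem (s := {x | ∃ q : Ideal (Rg n), q.IsPrime ∧ J tor γ w S σ P k ≤ q ∧
    q ≤ RingHom.ker (ev tor 0) ∧ q.height = x}) ⟨_, _, ker_prime tor, h, le_rfl, rfl⟩

theorem hh_mono {k k' : ℕ} (h : k ≤ k') :
    hh tor γ w S σ P k ≤ hh tor γ w S σ P k' := by
  refine sInf_le_sInf ?_
  rintro x ⟨q, h1, h2, h3, h4⟩
  exact ⟨q, h1, (J_mono tor γ w S σ P h).trans h2, h3, h4⟩

/-- the key minimality statement -/
theorem key_min {k : ℕ} {p p' q : Ideal (Rg n)} (hp : p.IsPrime)
    (hpm : p ≤ RingHom.ker (ev tor 0)) (hph : p.height = hh tor γ w S σ P k)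
    (hp' : p' ∈ (Jst tor p).minimalPrimes) (hpm' : p' ≤ RingHom.ker (ev tor 0))
    (hq : q.IsPrime) (hqp : q ≤ p')
    (hG : ∀ f ∈ Gen tor γ w S σ P k, ∀ z, p ≤ RingHom.ker (ev tor z) → tr tor z f ∈ q) :
    q = p' := by
  classical
  have hqm : q ≤ RingHom.ker (ev tor 0) := hqp.trans hpm'
  -- the ideal of the closure of the sum
  let P3 : Ideal (Rg n) :=
    { carrier := {f | ∀ c, q ≤ RingHom.ker (ev tor c) → tr tor c f ∈ p}
      add_mem' := fun {a b} ha hb c hc => by
        show tr tor c (a + b) ∈ p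
        rw [map_add]; exact p.add_mem (ha c hc) (hb c hc)
      zero_mem' := fun c hc => by
        show tr tor c 0 ∈ p
        rw [map_zero]; exact p.zero_mem
      smul_mem' := fun a b hb c hc => by
        show tr tor c (a • b) ∈ p
        rw [smul_eq_mul, map_mul]
        exact p.mul_mem_left _ (hb c hc) }
  have mem3 : ∀ f, f ∈ P3 ↔ ∀ c, q ≤ RingHom.ker (ev tor c) → tr tor c f ∈ p := fun f => Iff.rfl
  have hswap : ∀ (c z : Fin n → ℂ) (f : Rg n), ev tor c (tr tor z f) = ev tor z (tr tor c f) := by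
    intro c z f
    rw [ev_tr, add_comm, ← ev_tr]
  have hP3 : P3.IsPrime := by
    refine ⟨fun h => ?_, fun {a b} hab => ?_⟩
    · have h1 : (1 : Rg n) ∈ P3 := by rw [h]; trivial
      have h2 := (mem3 1).1 h1 0 hqm
      rw [map_one] at h2
      exact hp.ne_top ((Ideal.eq_top_iff_one _).2 h2)
    · have hcov := cover hq hqm (ι := Bool) (fun x => Ideal.span
        {g | ∃ z, p ≤ RingHom.ker (ev tor z) ∧ g = tr tor z (if x then a else b)})
        (fun c hc => by
          have h1 := (mem3 _).1 hab c hc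
          rw [map_mul] at h1
          rcases hp.mem_or_mem h1 with h2 | h2
          · refine ⟨true, Ideal.span_le.2 ?_⟩
            rintro _ ⟨z, hz, rfl⟩
            rw [SetLike.mem_coe, RingHom.mem_ker, if_pos rfl]
            exact (hswap c z a).trans (ev_zero_of_mem hz h2)
          · refine ⟨false, Ideal.span_le.2 ?_⟩
            rintro _ ⟨z, hz, rfl⟩
            rw [SetLike.mem_coe, RingHom.mem_ker, if_neg Bool.false_ne_true]
            exact (hswap c z b).trans (ev_zero_of_mem hz h2))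
      obtain ⟨x, hx⟩ := hcov
      have h3 : (if x then a else b) ∈ P3 := by
        rw [mem3]
        intro c hc
        refine nss hp hpm fun z hz => ?_
        rw [← hswap]
        exact ev_zero_of_mem hc (hx (Ideal.subset_span ⟨z, hz, rfl⟩))
      cases x
      · exact Or.inr h3
      · exact Or.inl h3
  have hJ3 : J tor γ w S σ P k ≤ P3 := by
    rw [J_le_iff]
    intro f hf
    rw [mem3]
    intro c hc
    refine nss hp hpm fun z hz => ?_
    rw [← hswap]
    exact ev_zero_of_mem hc (hG f hf z hz)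
  have h3p : P3 ≤ p := by
    intro f hf
    have := (mem3 f).1 hf 0 hqm
    rwa [tr_zero] at this
  have h3h : p.height ≤ P3.height := by
    rw [hph]
    exact hh_le tor γ w S σ P hP3 hJ3 (h3p.trans hpm)
  have h3 : P3 = p := by
    have := finHt hP3
    exact Ideal.eq_of_le_of_height_le P3 h3p h3h
  have hJq : Jst tor p ≤ q := by
    refine Ideal.span_le.2 ?_
    rintro _ ⟨z, f, hz, hf, rfl⟩
    refine nss hq hqm fun c hc => ?_
    rw [hswap]
    refine ev_zero_of_mem hz ?_
    have h4 : f ∈ P3 := by rw [h3]; exact hf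
    exact (mem3 f).1 h4 c hc
  exact le_antisymm hqp (hp'.2 ⟨hq, hJq⟩ hqp)

end Trs2

namespace Trs2

open MvPolynomial Trs Trs.Z

theorem zero_lemma (hTdim : S_Tdim) : S_Zero := by
  classical
  intro n m r tor γ w S σ d hd P0 hP0 hdeg hvan
  -- centre the box
  set P : Rg n := tr tor (gp γ fun _ => ((2 * n * S : ℕ) : ℤ)) P0 with hP
  have hPne : P ≠ 0 := by
    intro h
    exact hP0 (tr_injective tor _ (by rw [← hP, h, map_zero]))
  have hdegP : ∀ i, P.degreeOf i ≤ d i := fun i => (deg_tr _ _ _ _).trans (hdeg i)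
  have hJ : ∀ k, k ≤ 2 * n → J tor γ w S σ P k ≤ RingHom.ker (ev tor 0) := by
    intro k hk
    rw [J_le_iff]
    rintro f ⟨g, l, h1, h2, rfl⟩
    rw [RingHom.mem_ker]
    show ev tor 0 _ = 0
    rw [hP, wd_tr, tr_tr, ← gp_add, ev_tr, zero_add]
    refine hvan _ (fun j => ?_) l (h2.trans (by gcongr))
    have h3 := abs_le.1 (h1 j)
    have h4 : (k : ℤ) * S ≤ 2 * n * S := by
      exact_mod_cast Nat.mul_le_mul_right S hk
    rw [Pi.add_apply]
    push_cast
    constructor <;> nlinarith [h3.1, h3.2]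
  have hPJ : ∀ k, P ∈ J tor γ w S σ P k := fun k => Ideal.subset_span (self_mem_Gen _ _ _ _ _ _ k)
  obtain ⟨k, hk, hkk⟩ := three (hh tor γ w S σ P) n
    (fun a b hab _ => hh_mono tor γ w S σ P hab) (by
      obtain ⟨q, hq, h1, h2, h3⟩ := exists_hh tor γ w S σ P (hJ 0 (Nat.zero_le _))
      rw [← h3, Order.one_le_iff_ne_zero]
      intro h4
      rw [Ideal.height_eq_zero_iff_eq_bot] at h4
      have := h1 (hPJ 0)
      rw [h4] at this
      exact hPne this) (by
      obtain ⟨q, hq, h1, h2, h3⟩ := exists_hh tor γ w S σ P (hJ (2 * n) le_rfl)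
      rw [← h3]
      exact height_le_n hq)
  obtain ⟨p, hp, hJp, hpm, hph⟩ := exists_hh tor γ w S σ P (hJ (k + 2) hk)
  have hpb : p ≠ ⊥ := by
    intro h
    have := hJp (hPJ _)
    rw [h] at this
    exact hPne this
  obtain ⟨p', hp', hpm'⟩ : ∃ p' ∈ (Jst tor p).minimalPrimes, p' ≤ RingHom.ker (ev tor 0) := by
    have := ker_prime (n := n) tor
    exact Ideal.exists_minimalPrimes_le Jst_le
  have hGrp := grp_of_min hp hpb hpm hp' hpm'
  refine ⟨p', hGrp, ?_⟩
  intro I hI Ax hfree e heI hwt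
  have hpp : p'.IsPrime := hGrp.prime
  -- the codimension
  obtain ⟨c, hc⟩ := ENat.ne_top_iff_exists.1
    (ne_top_of_le_ne_top (ENat.natCast_ne_top n) (height_le_n hpp))
  have hcI : c + I.card = n := by
    have := hTdim n p' hpp I hI
    rw [← hc] at this
    exact_mod_cast this
  have hec : e ≤ c := by
    rw [Finset.card_compl, Fintype.card_fin] at heI
    omega
  -- the translates
  let T := {k : Fin m // k ∈ Ax} → Fin (S + 1)
  let gt : T → Fin m → ℤ := fun t k => if h : k ∈ Ax then ((t ⟨k, h⟩ : ℕ) : ℤ) else 0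
  have gt_le : ∀ t k, |gt t k| ≤ S := by
    intro t k
    by_cases h : k ∈ Ax
    · have e : gt t k = ((t ⟨k, h⟩ : ℕ) : ℤ) := dif_pos h
      rw [e, abs_of_nonneg (by positivity)]
      have := (t ⟨k, h⟩).2
      omega
    · have e : gt t k = 0 := dif_neg h
      rw [e, abs_zero]
      positivity
  have hcard : Fintype.card T = (S + 1) ^ Ax.card := by
    simp [T]
  rw [← hcard]
  -- the vector space
  let G2 : Set (Rg n) := {g | ∃ z f, p ≤ RingHom.ker (ev tor z) ∧
    f ∈ Gen tor γ w S σ P (k + 1) ∧ g = tr tor z f}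
  have hjets : ∀ t, ∀ v ∈ Submodule.span ℂ G2, ∀ l : List (Fin r), l.length ≤ σ →
      wd tor w l v ∈ pull tor (gp γ (gt t)) p' := by
    intro t v hv l hl
    refine Submodule.span_induction (p := fun v _ => wd tor w l v ∈ pull tor (gp γ (gt t)) p')
      ?_ ?_ ?_ ?_ hv
    · rintro _ ⟨z, f, hz, hf, rfl⟩
      rw [mem_pull, wd_tr, tr_tr, add_comm, ← tr_tr]
      refine hp'.1.2 (mem_Jst hz (hJp (Ideal.subset_span ?_)))
      exact Gen_step tor γ w S σ P hf (gt t) (gt_le t) l hl
    · have : wd tor w l (0 : Rg n) = 0 := by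
        have h0 := wd_smul tor w l 0 (0 : Rg n)
        rwa [zero_smul, zero_smul] at h0
      rw [this]
      exact Submodule.zero_mem _
    · intro a b _ _ ha hb
      rw [wd_add]
      exact Submodule.add_mem _ ha hb
    · intro a b _ hb
      rw [wd_smul, smul_eq_C_mul]
      exact Ideal.mul_mem_left _ _ hb
  refine core hTdim n c σ e r tor w I hcI hec d hd T (fun t => pull tor (gp γ (gt t)) p') ?_
    (fun t => pull_prime hpp) (fun t => by rw [pull_height]; exact hc.symm) ?_ ?_
    (Submodule.span ℂ G2) ?_ hjets ?_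
  · -- injectivity
    intro t t' htt
    simp only at htt
    have h1 : Stb tor p' (gp γ (gt t - gt t')) := by
      intro f
      have h2 : tr tor (gp γ (-(gt t'))) f ∈ pull tor (gp γ (gt t')) p' ↔
          tr tor (gp γ (-(gt t'))) f ∈ pull tor (gp γ (gt t)) p' := by
        rw [htt]
      rw [mem_pull, mem_pull, tr_tr, tr_tr, ← gp_add, ← gp_add, add_neg_cancel, gp_zero, tr_zero,
        ← sub_eq_add_neg] at h2
      exact h2
    have h2 := hfree (gt t - gt t') (fun k hk => by
      rw [Pi.sub_apply]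
      have e1 : gt t k = 0 := dif_neg hk
      have e2 : gt t' k = 0 := dif_neg hk
      rw [e1, e2, sub_zero]) h1
    funext ⟨k, hk⟩
    have h3 := congrFun h2 k
    rw [Pi.sub_apply, Pi.zero_apply] at h3
    have e1 : gt t k = ((t ⟨k, hk⟩ : ℕ) : ℤ) := dif_pos hk
    have e2 : gt t' k = ((t' ⟨k, hk⟩ : ℕ) : ℤ) := dif_pos hk
    rw [e1, e2] at h3
    exact Fin.ext (by omega)
  · -- independence
    intro t f hf hfq
    have h1 := hI.1 _ ((vars_tr tor _ f).trans hf) (mem_pull.1 hfq)
    exact tr_injective tor _ (by rw [h1, map_zero])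
  · -- transversality
    intro t
    obtain ⟨c', z, hz, hdet⟩ := hwt
    refine ⟨c', fun i => tr tor (-(gp γ (gt t))) (z i), fun i => ?_, ?_⟩
    · rw [mem_pull, tr_tr_neg]
      exact hz i
    · intro h
      apply hdet
      rw [mem_pull] at h
      have e1 : tr tor (gp γ (gt t)) (Matrix.det (Matrix.of fun i j =>
          dr tor (w (c' i)) (tr tor (-(gp γ (gt t))) (z j)))) =
          Matrix.det (Matrix.of fun i j => dr tor (w (c' i)) (z j)) := by
        rw [AlgHom.map_det]
        congr 1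
        ext1 i j
        show tr tor (gp γ (gt t)) (dr tor (w (c' i)) (tr tor (-(gp γ (gt t))) (z j))) = _
        rw [dr_tr, tr_tr_neg]
        rfl
      rw [e1] at h
      exact h
  · -- minimal primes
    intro t
    refine ⟨⟨pull_prime hpp, ?_⟩, ?_⟩
    · refine Ideal.span_le.2 fun v hv => ?_
      exact hjets t v hv [] (Nat.zero_le _)
    · rintro q' ⟨hq', hJq'⟩ hle
      have h1 : pull tor (-(gp γ (gt t))) q' = p' := by
        refine key_min tor γ w S σ P hp hpm (hph.trans hkk) hp' hpm' (pull_prime hq') ?_ ?_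
        · intro f hf
          have h2 := mem_pull.1 (hle (mem_pull.1 hf))
          rwa [tr_tr_neg] at h2
        · intro f hf z hz
          rw [mem_pull, tr_tr, add_comm, ← tr_tr]
          have h2 := Gen_step' tor γ w S σ P hf (-(gt t))
            (fun j => by rw [Pi.neg_apply, abs_neg]; exact gt_le t j)
          rw [gp_neg] at h2
          exact hJq' (Ideal.subset_span (Submodule.subset_span ⟨z, _, hz, h2, rfl⟩))
      intro f hf
      have h5 : tr tor (gp γ (gt t)) f ∈ pull tor (-(gp γ (gt t))) q' := by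
        rw [h1]
        exact mem_pull.1 hf
      rw [mem_pull, tr_neg_tr] at h5
      exact h5
  · -- degrees
    intro f hf i
    refine Submodule.span_induction (p := fun f _ => f.degreeOf i ≤ d i) ?_ ?_ ?_ ?_ hf
    · rintro _ ⟨z, f, hz, hf, rfl⟩
      exact (deg_tr _ _ _ _).trans ((deg_Gen tor γ w S σ P hf i).trans (hdegP i))
    · rw [degreeOf_zero]; exact Nat.zero_le _
    · intro f g _ _ h1 h2
      exact (degreeOf_add_le _ _ _).trans (max_le h1 h2)
    · intro a f _ h1
      rw [smul_eq_C_mul]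
      exact (degreeOf_C_mul_le _ _ _).trans h1

end Trs2
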